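import Mathlib

set_option autoImplicit false

namespace Pool.Agent.IndTwoJacobi

open Finset

section general

/-- the sign sum identity -/
theorem sign_sum (i : ℕ) : ∀ r : ℕ,
    ∑ s ∈ range r, (2 : ℤ) ^ s * (-1) ^ (i / 2 ^ s) = 2 ^ r - 1 - 2 * ((i % 2 ^ r : ℕ) : ℤ) := by
  intro r
  induction r with
  | zero => simp [Nat.mod_one]
  | succ r ih =>
    rw [sum_range_succ, ih, Nat.mod_pow_succ]
    rcases Nat.even_or_odd' (i / 2 ^ r) with ⟨c, hc | hc⟩
    · rw [hc]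
      have h2 : (2 * c) % 2 = 0 := by omega
      rw [h2, pow_mul]
      push_cast
      ring
    · rw [hc]
      have h2 : (2 * c + 1) % 2 = 1 := by omega
      rw [h2, pow_add, pow_mul]
      push_cast
      ring

theorem neg_one_pow_parity (a b : ℕ) (h : (-1 : ℤ) ^ a = (-1) ^ b) : a ≡ b [MOD 2] := by
  rcases Nat.even_or_odd a with ha | ha <;> rcases Nat.even_or_odd b with hb | hb
  · unfold Nat.ModEq; rw [Nat.even_iff] at ha hb; omega
  · rw [ha.neg_one_pow, hb.neg_one_pow] at h; norm_num at h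
  · rw [ha.neg_one_pow, hb.neg_one_pow] at h; norm_num at h
  · unfold Nat.ModEq; rw [Nat.odd_iff] at ha hb; omega

end general

section setup

variable {p : ℕ} [Fact p.Prime] {g : ZMod p}

theorem prim (hg : orderOf g = p - 1) : IsPrimitiveRoot g (p - 1) := by
  rw [← hg]; exact IsPrimitiveRoot.orderOf g

theorem g_ne_zero (hp : 2 < p) (hg : orderOf g = p - 1) : g ≠ 0 := by
  intro h
  have h1 := (prim hg).pow_eq_one
  rw [h, zero_pow (by omega)] at h1
  exact zero_ne_one h1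

theorem exists_log (hp : 2 < p) (hg : orderOf g = p - 1) (x : ZMod p) (hx : x ≠ 0) :
    ∃ a < p - 1, g ^ a = x := by
  have : NeZero (p - 1) := ⟨by omega⟩
  exact (prim hg).eq_pow_of_pow_eq_one (ZMod.pow_card_sub_one_eq_one hx)

theorem pow_eq_iff (hp : 2 < p) (hg : orderOf g = p - 1) (a b : ℕ) :
    g ^ a = g ^ b ↔ a ≡ b [MOD (p - 1)] := by
  have h0 := g_ne_zero hp hg
  have : (Units.mk0 g h0) ^ a = (Units.mk0 g h0) ^ b ↔ a ≡ b [MOD orderOf (Units.mk0 g h0)] :=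
    pow_eq_pow_iff_modEq
  have hord : orderOf (Units.mk0 g h0) = p - 1 := by
    rw [← orderOf_units, Units.val_mk0, hg]
  rw [hord] at this
  rw [← this, Units.ext_iff]
  simp

theorem eta_g (hp : 2 < p) (hg : orderOf g = p - 1) : quadraticChar (ZMod p) g = -1 := by
  have h0 := g_ne_zero hp hg
  rcases quadraticChar_dichotomy h0 with h | h
  · exfalso
    rw [quadraticChar_one_iff_isSquare h0] at h
    obtain ⟨y, hy⟩ := h
    have hy0 : y ≠ 0 := by
      rintro rfl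
      simp at hy
      exact h0 hy
    have h1 : y ^ (p - 1) = 1 := ZMod.pow_card_sub_one_eq_one hy0
    have hodd : p % 2 = 1 := by
      rcases (Fact.out : p.Prime).eq_two_or_odd with h | h
      · omega
      · exact h
    have h2 : g ^ ((p - 1) / 2) = 1 := by
      rw [hy, ← pow_two, ← pow_mul]
      have : 2 * ((p - 1) / 2) = p - 1 := by omega
      rw [this, h1]
    have h3 := orderOf_dvd_of_pow_eq_one h2
    rw [hg] at h3
    have h4 := Nat.le_of_dvd (by omega) h3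
    omega
  · exact h

theorem eta_pow (hp : 2 < p) (hg : orderOf g = p - 1) (a : ℕ) :
    quadraticChar (ZMod p) (g ^ a) = (-1) ^ a := by
  rw [map_pow, eta_g hp hg]

/-- epsilon -/
noncomputable def eps (g : ZMod p) (i : ℕ) : ℤ := quadraticChar (ZMod p) (1 - g ^ (2 * i + 1))

theorem one_sub_ne (hp : 2 < p) (hg : orderOf g = p - 1) (i : ℕ) : 1 - g ^ (2 * i + 1) ≠ 0 := by
  intro h
  have h1 : g ^ (2 * i + 1) = g ^ 0 := by rw [pow_zero]; exact (sub_eq_zero.mp h).symm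
  rw [pow_eq_iff hp hg] at h1
  have hodd : p % 2 = 1 := by
    rcases (Fact.out : p.Prime).eq_two_or_odd with h | h
    · omega
    · exact h
  have h2 := h1.of_dvd (show 2 ∣ p - 1 by omega)
  unfold Nat.ModEq at h2
  omega

theorem eps_sq (hp : 2 < p) (hg : orderOf g = p - 1) (i : ℕ) : eps g i = 1 ∨ eps g i = -1 :=
  quadraticChar_dichotomy (one_sub_ne hp hg i)

/-- reflection -/
theorem eps_reflect (hp : 2 < p) (hg : orderOf g = p - 1) (h4 : 4 ∣ p - 1) (i : ℕ)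
    (hi : i < (p - 1) / 2) : eps g ((p - 1) / 2 - 1 - i) = - eps g i := by
  unfold eps
  have hm1 : quadraticChar (ZMod p) (-1) = 1 := by
    obtain ⟨a, ha, hga⟩ := exists_log hp hg (-1) (by simp)
    have h1 : g ^ (2 * a) = g ^ 0 := by
      rw [mul_comm, pow_mul, hga]; simp
    rw [pow_eq_iff hp hg] at h1
    have h2 := h1.of_dvd h4
    unfold Nat.ModEq at h2
    rw [← hga, eta_pow hp hg]
    have : Even a := by
      rw [Nat.even_iff]; omega
    exact this.neg_one_pow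
  have hk : (2 * i + 1) + (2 * ((p - 1) / 2 - 1 - i) + 1) = p - 1 := by omega
  have hmul : g ^ (2 * i + 1) * (1 - g ^ (2 * ((p - 1) / 2 - 1 - i) + 1))
      = (-1) * (1 - g ^ (2 * i + 1)) := by
    rw [mul_sub, ← pow_add, hk, (prim hg).pow_eq_one]
    ring
  have h5 := congrArg (quadraticChar (ZMod p)) hmul
  rw [map_mul, map_mul, hm1, eta_pow hp hg, pow_succ, pow_mul] at h5
  rw [neg_one_sq, one_pow] at h5
  linarith


theorem two_mul_half (hp : 2 < p) : 2 * ((p - 1) / 2) = p - 1 := by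
  have hodd : p % 2 = 1 := by
    rcases (Fact.out : p.Prime).eq_two_or_odd with h | h
    · omega
    · exact h
  omega

/-- The set of `i` with `1 - g^(2i+1)` a nonresidue. -/
noncomputable def OO (g : ZMod p) : Finset ℕ := (range ((p - 1) / 2)).filter (fun i => eps g i = -1)

theorem sum_eps_mul (hp : 2 < p) (hg : orderOf g = p - 1) (f : ℕ → ℤ)
    (hf : ∀ i < (p - 1) / 2, f ((p - 1) / 2 - 1 - i) = - f i) :
    ∑ i ∈ range ((p - 1) / 2), eps g i * f i = - 2 * ∑ i ∈ OO g, f i := by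
  have h1 : ∑ i ∈ range ((p - 1) / 2), f i = 0 := by
    have h2 : ∑ i ∈ range ((p - 1) / 2), f ((p - 1) / 2 - 1 - i)
        = ∑ i ∈ range ((p - 1) / 2), f i := sum_range_reflect f _
    have h3 : ∑ i ∈ range ((p - 1) / 2), f ((p - 1) / 2 - 1 - i)
        = - ∑ i ∈ range ((p - 1) / 2), f i := by
      rw [← sum_neg_distrib]
      exact sum_congr rfl (fun i hi => hf i (mem_range.mp hi))
    linarith
  have h4 : ∑ i ∈ range ((p - 1) / 2), eps g i * f i
      = ∑ i ∈ range ((p - 1) / 2), (f i - 2 * (if eps g i = -1 then f i else 0)) := by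
    apply sum_congr rfl
    intro i _
    rcases eps_sq hp hg i with h | h
    · rw [h]; norm_num
    · rw [h]; norm_num; ring
  rw [h4, sum_sub_distrib, h1, ← mul_sum, ← sum_filter]
  unfold OO
  ring

theorem card_OO (hp : 2 < p) (hg : orderOf g = p - 1) (h4 : 4 ∣ p - 1) :
    2 * (OO g).card = (p - 1) / 2 := by
  have h1 : ∑ i ∈ range ((p - 1) / 2), eps g i = 0 := by
    have h2 : ∑ i ∈ range ((p - 1) / 2), eps g ((p - 1) / 2 - 1 - i)
        = ∑ i ∈ range ((p - 1) / 2), eps g i := sum_range_reflect (eps g) _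
    have h3 : ∑ i ∈ range ((p - 1) / 2), eps g ((p - 1) / 2 - 1 - i)
        = - ∑ i ∈ range ((p - 1) / 2), eps g i := by
      rw [← sum_neg_distrib]
      exact sum_congr rfl (fun i hi => eps_reflect hp hg h4 i (mem_range.mp hi))
    linarith
  have h5 : ∑ i ∈ range ((p - 1) / 2), eps g i
      = ∑ i ∈ range ((p - 1) / 2), ((1 : ℤ) - 2 * (if eps g i = -1 then 1 else 0)) := by
    apply sum_congr rfl
    intro i _
    rcases eps_sq hp hg i with h | h
    · rw [h]; norm_num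
    · rw [h]; norm_num
  rw [h1, sum_sub_distrib, ← mul_sum, ← sum_filter] at h5
  simp only [sum_const, card_range, nsmul_eq_mul, mul_one] at h5
  have h6 : (2 : ℤ) * ((OO g).card : ℤ) = (((p - 1) / 2 : ℕ) : ℤ) := by
    unfold OO
    linarith
  exact_mod_cast h6

theorem prod_all (hp : 2 < p) (hg : orderOf g = p - 1) :
    ∏ i ∈ range ((p - 1) / 2), (1 - g ^ (2 * i + 1)) = 2 := by
  have hH := two_mul_half hp
  have hpos : 0 < (p - 1) / 2 := by omega
  have hprim : IsPrimitiveRoot (g ^ 2) ((p - 1) / 2) := (prim hg).pow (by omega) hH.symm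
  have hneg : g ^ ((p - 1) / 2) = -1 := by
    have h1 : (g ^ ((p - 1) / 2)) * (g ^ ((p - 1) / 2)) = 1 := by
      rw [← pow_add, ← two_mul, hH, (prim hg).pow_eq_one]
    rcases mul_self_eq_one_iff.mp h1 with h | h
    · exfalso
      have h3 := orderOf_dvd_of_pow_eq_one h
      rw [hg] at h3
      have h4 := Nat.le_of_dvd (by omega) h3
      omega
    · exact h
  have h := X_pow_sub_C_eq_prod hprim hpos hneg
  have h2 := congrArg (Polynomial.eval (1 : ZMod p)) h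
  rw [Polynomial.eval_prod] at h2
  simp only [Polynomial.eval_sub, Polynomial.eval_pow, Polynomial.eval_X, Polynomial.eval_C,
    one_pow] at h2
  have h3 : ∏ i ∈ range ((p - 1) / 2), (1 - g ^ (2 * i + 1))
      = ∏ i ∈ range ((p - 1) / 2), (1 - (g ^ 2) ^ i * g) := by
    apply prod_congr rfl
    intro i _
    rw [pow_succ, pow_mul]
  rw [h3, ← h2]
  norm_num

/-- discrete log -/
noncomputable def lg (g x : ZMod p) : ℕ := sInf {a : ℕ | g ^ a = x}

theorem pow_lg (hp : 2 < p) (hg : orderOf g = p - 1) (x : ZMod p) (hx : x ≠ 0) :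
    g ^ (lg g x) = x := by
  obtain ⟨a, _, h⟩ := exists_log hp hg x hx
  exact Nat.sInf_mem (s := {a : ℕ | g ^ a = x}) ⟨a, h⟩

theorem lg_lt (hp : 2 < p) (hg : orderOf g = p - 1) (x : ZMod p) (hx : x ≠ 0) :
    lg g x < p - 1 := by
  obtain ⟨a, ha, h⟩ := exists_log hp hg x hx
  exact lt_of_le_of_lt (Nat.sInf_le (s := {a : ℕ | g ^ a = x}) h) ha

theorem lg_pow (hp : 2 < p) (hg : orderOf g = p - 1) (a : ℕ) (ha : a < p - 1) :
    lg g (g ^ a) = a := by
  have h0 := g_ne_zero hp hg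
  have h1 := pow_lg hp hg (g ^ a) (pow_ne_zero a h0)
  have h2 := lg_lt hp hg (g ^ a) (pow_ne_zero a h0)
  rw [pow_eq_iff hp hg] at h1
  exact Nat.ModEq.eq_of_lt_of_lt h1 h2 ha

theorem eps_eq_lg (hp : 2 < p) (hg : orderOf g = p - 1) (i : ℕ) :
    eps g i = (-1) ^ (lg g (1 - g ^ (2 * i + 1))) := by
  rw [← eta_pow hp hg, pow_lg hp hg _ (one_sub_ne hp hg i), eps]

theorem prod_swap (hp : 2 < p) (hg : orderOf g = p - 1) :
    ∏ i ∈ OO g, (1 - g ^ (2 * i + 1)) = ∏ i ∈ OO g, g ^ (2 * i + 1) := by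
  have hH := two_mul_half hp
  have key : ∀ i ∈ OO g, ∃ j, lg g (1 - g ^ (2 * i + 1)) = 2 * j + 1 := by
    intro i hi
    have h1 := (mem_filter.mp hi).2
    rw [eps_eq_lg hp hg] at h1
    rcases Nat.even_or_odd' (lg g (1 - g ^ (2 * i + 1))) with ⟨c, hc | hc⟩
    · rw [hc, pow_mul] at h1
      norm_num at h1
    · exact ⟨c, hc⟩
  have key2 : ∀ i ∈ OO g, 2 * ((lg g (1 - g ^ (2 * i + 1)) - 1) / 2) + 1
      = lg g (1 - g ^ (2 * i + 1)) := by
    intro i hi
    obtain ⟨j, hj⟩ := key i hi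
    omega
  have key3 : ∀ i ∈ OO g, g ^ (2 * ((lg g (1 - g ^ (2 * i + 1)) - 1) / 2) + 1)
      = 1 - g ^ (2 * i + 1) := by
    intro i hi
    rw [key2 i hi, pow_lg hp hg _ (one_sub_ne hp hg i)]
  have hmem : ∀ i ∈ OO g, (lg g (1 - g ^ (2 * i + 1)) - 1) / 2 ∈ OO g := by
    intro i hi
    unfold OO
    rw [mem_filter, mem_range]
    constructor
    · have := lg_lt hp hg _ (one_sub_ne hp hg i)
      have := key2 i hi
      omega
    · unfold eps
      rw [key3 i hi, sub_sub_cancel, eta_pow hp hg, pow_succ, pow_mul]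
      norm_num
  have hinv : ∀ i ∈ OO g, (lg g (1 - g ^ (2 * ((lg g (1 - g ^ (2 * i + 1)) - 1) / 2) + 1)) - 1) / 2
      = i := by
    intro i hi
    rw [key3 i hi, sub_sub_cancel, lg_pow hp hg]
    · omega
    · have := mem_range.mp (mem_filter.mp hi).1
      omega
  exact prod_nbij' (fun i => (lg g (1 - g ^ (2 * i + 1)) - 1) / 2)
    (fun i => (lg g (1 - g ^ (2 * i + 1)) - 1) / 2) hmem hmem hinv hinv
    (fun i hi => (key3 i hi).symm)

theorem mul_reflect (hp : 2 < p) (hg : orderOf g = p - 1) (i : ℕ) (hi : i < (p - 1) / 2) :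
    g ^ (2 * i + 1) * (1 - g ^ (2 * ((p - 1) / 2 - 1 - i) + 1)) = -(1 - g ^ (2 * i + 1)) := by
  have hH := two_mul_half hp
  have hk : (2 * i + 1) + (2 * ((p - 1) / 2 - 1 - i) + 1) = p - 1 := by omega
  rw [mul_sub, ← pow_add, hk, (prim hg).pow_eq_one]
  ring

theorem prod_reflect_aux (hp : 2 < p) (hg : orderOf g = p - 1) (S T : Finset ℕ)
    (hS : ∀ i ∈ S, i < (p - 1) / 2 ∧ (p - 1) / 2 - 1 - i ∈ T)
    (hT : ∀ i ∈ T, i < (p - 1) / 2 ∧ (p - 1) / 2 - 1 - i ∈ S) (hcard : Even S.card) :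
    (∏ i ∈ T, (1 - g ^ (2 * i + 1))) * ∏ i ∈ S, g ^ (2 * i + 1)
      = ∏ i ∈ S, (1 - g ^ (2 * i + 1)) := by
  have h1 : ∏ i ∈ T, (1 - g ^ (2 * i + 1))
      = ∏ i ∈ S, (1 - g ^ (2 * ((p - 1) / 2 - 1 - i) + 1)) := by
    apply prod_nbij' (fun i => (p - 1) / 2 - 1 - i) (fun i => (p - 1) / 2 - 1 - i)
    · exact fun i hi => (hT i hi).2
    · exact fun i hi => (hS i hi).2
    · intro i hi
      have := (hT i hi).1
      show (p - 1) / 2 - 1 - ((p - 1) / 2 - 1 - i) = i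
      omega
    · intro i hi
      have := (hS i hi).1
      show (p - 1) / 2 - 1 - ((p - 1) / 2 - 1 - i) = i
      omega
    · intro i hi
      have := (hT i hi).1
      have h : (p - 1) / 2 - 1 - ((p - 1) / 2 - 1 - i) = i := by omega
      show _ = 1 - g ^ (2 * ((p - 1) / 2 - 1 - ((p - 1) / 2 - 1 - i)) + 1)
      rw [h]
  rw [h1, mul_comm, ← prod_mul_distrib]
  have h2 : ∏ i ∈ S, g ^ (2 * i + 1) * (1 - g ^ (2 * ((p - 1) / 2 - 1 - i) + 1))
      = ∏ i ∈ S, ((-1) * (1 - g ^ (2 * i + 1))) := by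
    apply prod_congr rfl
    intro i hi
    rw [mul_reflect hp hg i (hS i hi).1]
    ring
  rw [h2, prod_mul_distrib, prod_const, hcard.neg_one_pow, one_mul]

theorem prod_OO (hp : 2 < p) (hg : orderOf g = p - 1) (h8 : 8 ∣ p - 1) :
    ∏ i ∈ OO g, g ^ (2 * i + 1) = 2 := by
  have h4 : 4 ∣ p - 1 := Dvd.dvd.trans (by norm_num) h8
  have h0 := g_ne_zero hp hg
  have hc := card_OO hp hg h4
  have hev : Even (OO g).card := by
    rw [Nat.even_iff]; omega
  set T := (range ((p - 1) / 2)).filter (fun i => ¬ eps g i = -1) with hTdef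
  have h1 := prod_reflect_aux hp hg (OO g) T (by
    intro i hi
    have hi1 := mem_range.mp (mem_filter.mp hi).1
    have hi2 := (mem_filter.mp hi).2
    refine ⟨hi1, ?_⟩
    rw [hTdef, mem_filter, mem_range]
    refine ⟨by omega, ?_⟩
    rw [eps_reflect hp hg h4 i hi1, hi2]
    norm_num) (by
    intro i hi
    have hi1 := mem_range.mp (mem_filter.mp hi).1
    have hi2 := (mem_filter.mp hi).2
    refine ⟨hi1, ?_⟩
    unfold OO
    rw [mem_filter, mem_range]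
    refine ⟨by omega, ?_⟩
    rw [eps_reflect hp hg h4 i hi1]
    rcases eps_sq hp hg i with h | h
    · rw [h]
    · exact absurd h hi2) hev
  have h2 := prod_all hp hg
  have h3 : (∏ i ∈ OO g, (1 - g ^ (2 * i + 1))) * ∏ i ∈ T, (1 - g ^ (2 * i + 1)) = 2 := by
    rw [← h2]
    exact prod_filter_mul_prod_filter_not _ _ _
  have h5 := prod_swap hp hg
  rw [← h5] at h1
  rw [h5] at h3 h1
  have hne : ∏ i ∈ OO g, g ^ (2 * i + 1) ≠ 0 := prod_ne_zero_iff.mpr (fun i _ => pow_ne_zero _ h0)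
  have h6 : ∏ i ∈ T, (1 - g ^ (2 * i + 1)) = 1 := by
    have h7 : (∏ i ∈ T, (1 - g ^ (2 * i + 1))) * ∏ i ∈ OO g, g ^ (2 * i + 1)
      = 1 * ∏ i ∈ OO g, g ^ (2 * i + 1) := by rw [h1, one_mul]
    exact mul_right_cancel₀ hne h7
  rw [h6, mul_one] at h3
  exact h3

theorem sum_OO (hp : 2 < p) (hg : orderOf g = p - 1) (h8 : 8 ∣ p - 1) (k : ℕ) (hk : g ^ k = 2) :
    ∑ i ∈ OO g, (2 * i + 1) ≡ k [MOD (p - 1)] := by
  rw [← pow_eq_iff hp hg, hk, ← prod_OO hp hg h8, prod_pow_eq_pow_sum]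


/-- the blocks -/
def blk (p m b : ℕ) : Finset ℕ := (range ((p - 1) / 2)).filter (fun i => (i / m) % 2 = b)

theorem div_reflect (H m : ℕ) (hm : 0 < m) (h : 2 * m ∣ H) (i : ℕ) (hi : i < H) :
    ∃ c, (H - 1 - i) / m + i / m + 1 = 2 * c := by
  obtain ⟨c, hc⟩ := h
  have hH : H = m * (2 * c) := by rw [hc]; ring
  refine ⟨c, ?_⟩
  have h1 : (m * (2 * c) - (i + 1)) / m = 2 * c - (i / m + 1) := by
    apply Nat.mul_sub_div
    rw [← hH]; exact hi
  have h2 : H - 1 - i = m * (2 * c) - (i + 1) := by omega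
  rw [h2, h1]
  have h3 : i / m < 2 * c := by
    rw [Nat.div_lt_iff_lt_mul hm]
    rw [mul_comm, ← hH]; exact hi
  omega

theorem add_lt_of_even_div (H m : ℕ) (hm : 0 < m) (h : 2 * m ∣ H) (i : ℕ) (hi : i < H)
    (hev : (i / m) % 2 = 0) : i + m < H := by
  obtain ⟨c, hc⟩ := h
  have h3 : i / m < 2 * c := by
    rw [Nat.div_lt_iff_lt_mul hm]
    calc i < H := hi
      _ = 2 * c * m := by rw [hc]; ring
  have h4 : i / m + 1 < 2 * c := by omega
  have h5 : i / m + 2 ≤ 2 * c := by omega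
  have h6 : i < m * (i / m + 1) := by
    exact Nat.lt_mul_div_succ i hm
  calc i + m < m * (i / m + 1) + m := by omega
    _ = m * (i / m + 2) := by ring
    _ ≤ m * (2 * c) := Nat.mul_le_mul_left m h5
    _ = H := by rw [hc]; ring

theorem sum_blk (m : ℕ) (hm : 0 < m) (h : 2 * m ∣ (p - 1) / 2) :
    ∑ i ∈ blk p m 1, (2 * i + 1) = ∑ i ∈ blk p m 0, (2 * (i + m) + 1) := by
  symm
  apply sum_nbij' (fun i => i + m) (fun i => i - m)
  · intro i hi
    have hi1 := mem_range.mp (mem_filter.mp hi).1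
    have hi2 := (mem_filter.mp hi).2
    unfold blk
    rw [mem_filter, mem_range]
    refine ⟨add_lt_of_even_div _ m hm h i hi1 hi2, ?_⟩
    rw [Nat.add_div_right _ hm]
    omega
  · intro i hi
    have hi1 := mem_range.mp (mem_filter.mp hi).1
    have hi2 := (mem_filter.mp hi).2
    have hle : m ≤ i := by
      by_contra hlt
      rw [Nat.div_eq_of_lt (by omega)] at hi2
      omega
    unfold blk
    rw [mem_filter, mem_range]
    refine ⟨by omega, ?_⟩
    have h5 : (i - m + m) / m = (i - m) / m + 1 := Nat.add_div_right _ hm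
    rw [Nat.sub_add_cancel hle] at h5
    omega
  · intro i hi
    exact Nat.add_sub_cancel i m
  · intro i hi
    have hi2 := (mem_filter.mp hi).2
    have hle : m ≤ i := by
      by_contra hlt
      rw [Nat.div_eq_of_lt (by omega)] at hi2
      omega
    exact Nat.sub_add_cancel hle
  · intro i hi
    rfl

theorem blk_reflect (m : ℕ) (hm : 0 < m) (h : 2 * m ∣ (p - 1) / 2) (b : ℕ) (hb : b < 2)
    (i : ℕ) (hi : i ∈ blk p m b) : i < (p - 1) / 2 ∧ (p - 1) / 2 - 1 - i ∈ blk p m (1 - b) := by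
  have hi1 := mem_range.mp (mem_filter.mp hi).1
  have hi2 := (mem_filter.mp hi).2
  refine ⟨hi1, ?_⟩
  unfold blk
  rw [mem_filter, mem_range]
  refine ⟨by omega, ?_⟩
  obtain ⟨c, hc⟩ := div_reflect _ m hm h i hi1
  omega

theorem card_blk (m : ℕ) (hm : 0 < m) (h : 2 * m ∣ (p - 1) / 2) :
    (blk p m 0).card = (blk p m 1).card := by
  apply card_nbij' (fun i => (p - 1) / 2 - 1 - i) (fun i => (p - 1) / 2 - 1 - i)
  · exact fun i hi => (blk_reflect m hm h 0 (by norm_num) i hi).2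
  · exact fun i hi => (blk_reflect m hm h 1 (by norm_num) i hi).2
  · intro i hi
    have := (blk_reflect m hm h 0 (by norm_num) i hi).1
    show (p - 1) / 2 - 1 - ((p - 1) / 2 - 1 - i) = i
    omega
  · intro i hi
    have := (blk_reflect m hm h 1 (by norm_num) i hi).1
    show (p - 1) / 2 - 1 - ((p - 1) / 2 - 1 - i) = i
    omega

theorem blk_not (m : ℕ) : (range ((p - 1) / 2)).filter (fun i => ¬ (i / m) % 2 = 0) = blk p m 1 := by
  unfold blk
  apply filter_congr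
  intro i _
  omega

theorem two_card_blk (m : ℕ) (hm : 0 < m) (h : 2 * m ∣ (p - 1) / 2) :
    2 * (blk p m 0).card = (p - 1) / 2 := by
  have h1 := card_blk (p := p) m hm h
  have h2 : (blk p m 0).card + (blk p m 1).card = (p - 1) / 2 := by
    rw [← blk_not, blk]
    have := card_filter_add_card_filter_not (s := range ((p - 1) / 2)) (fun i => (i / m) % 2 = 0)
    rw [card_range] at this
    exact this
  omega

theorem sum_odd (H : ℕ) : ∑ i ∈ range H, (2 * i + 1) = H * H := by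
  induction H with
  | zero => simp
  | succ H ih => rw [sum_range_succ, ih]; ring

/-- the parity count -/
theorem quartic (hp : 2 < p) (hg : orderOf g = p - 1) (h16 : 16 ∣ p - 1) (m : ℕ) (hm : 0 < m)
    (h : 2 * m ∣ (p - 1) / 2) (k : ℕ) (hk : g ^ k = 2) :
    ∃ r : ℕ, ((OO g).filter (fun i => (i / m) % 2 = 1)).card ≡ r [MOD 2] ∧ 2 * r ≡ k [MOD 4] := by
  have hH := two_mul_half hp
  have hc := two_card_blk (p := p) m hm h
  have hev : Even (blk p m 0).card := by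
    rw [Nat.even_iff]; omega
  have h1 := prod_reflect_aux hp hg (blk p m 0) (blk p m 1)
    (blk_reflect m hm h 0 (by norm_num)) (blk_reflect m hm h 1 (by norm_num)) hev
  have h2 : (∏ i ∈ blk p m 0, (1 - g ^ (2 * i + 1))) * ∏ i ∈ blk p m 1, (1 - g ^ (2 * i + 1)) = 2 := by
    rw [← prod_all hp hg, ← blk_not]
    exact prod_filter_mul_prod_filter_not _ _ _
  have hR0 : ∏ i ∈ blk p m 1, (1 - g ^ (2 * i + 1)) ≠ 0 :=
    prod_ne_zero_iff.mpr (fun i _ => one_sub_ne hp hg i)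
  obtain ⟨r, hr, hgr⟩ := exists_log hp hg _ hR0
  refine ⟨r, ?_, ?_⟩
  · -- parity
    have h3 := congrArg (quadraticChar (ZMod p)) hgr
    rw [eta_pow hp hg, map_prod] at h3
    have h4 : ∏ i ∈ blk p m 1, quadraticChar (ZMod p) (1 - g ^ (2 * i + 1))
        = (-1) ^ ((OO g).filter (fun i => (i / m) % 2 = 1)).card := by
      have h5 : ∏ i ∈ blk p m 1, quadraticChar (ZMod p) (1 - g ^ (2 * i + 1))
          = ∏ i ∈ blk p m 1, (if eps g i = -1 then (-1 : ℤ) else 1) := by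
        apply prod_congr rfl
        intro i _
        show eps g i = _
        rcases eps_sq hp hg i with h | h
        · rw [h]; norm_num
        · rw [h]; norm_num
      rw [h5, ← prod_filter, prod_const]
      congr 2
      unfold OO blk
      rw [filter_filter, filter_filter]
      apply filter_congr
      intro i _
      tauto
    rw [h4] at h3
    exact (neg_one_pow_parity _ _ h3).symm
  · -- value mod 4
    have h3 : g ^ (2 * r + ∑ i ∈ blk p m 0, (2 * i + 1)) = g ^ k := by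
      rw [hk, pow_add, ← prod_pow_eq_pow_sum, mul_comm 2 r, pow_mul, hgr, ← h2, ← h1]
      ring
    rw [pow_eq_iff hp hg] at h3
    have h4 : 4 ∣ ∑ i ∈ blk p m 0, (2 * i + 1) := by
      have h5 := sum_blk (p := p) m hm h
      have h6 : ∑ i ∈ blk p m 0, (2 * i + 1) + ∑ i ∈ blk p m 1, (2 * i + 1)
          = (p - 1) / 2 * ((p - 1) / 2) := by
        rw [← sum_odd, ← blk_not]
        exact sum_filter_add_sum_filter_not _ _ _
      have h7 : ∑ i ∈ blk p m 0, (2 * (i + m) + 1)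
          = ∑ i ∈ blk p m 0, (2 * i + 1) + 2 * m * (blk p m 0).card := by
        rw [show 2 * m * (blk p m 0).card = ∑ i ∈ blk p m 0, 2 * m by
          rw [sum_const, smul_eq_mul]; ring, ← sum_add_distrib]
        apply sum_congr rfl
        intro i _
        ring
      rw [h5, h7] at h6
      obtain ⟨c, hc'⟩ := h16
      have h8 : (p - 1) / 2 = 8 * c := by omega
      have h9 : (blk p m 0).card = 4 * c := by omega
      rw [h8, h9] at h6
      -- 2 E + 8 m c = 64 c^2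
      have h10 : ∑ i ∈ blk p m 0, (2 * i + 1) + 4 * (m * c) = 4 * (8 * (c * c)) := by nlinarith
      omega
    have h5 : 4 ∣ p - 1 := Dvd.dvd.trans (by norm_num) h16
    have h6 := h3.of_dvd h5
    unfold Nat.ModEq at h6 ⊢
    omega

theorem main_cong (hp : 2 < p) (hg : orderOf g = p - 1) (h16 : 16 ∣ p - 1) (m : ℕ) (hm : 0 < m)
    (h : 4 * m ∣ p - 1) (k : ℕ) (hk : g ^ k = 2) :
    (8 * m : ℤ) ∣ ∑ i ∈ range ((p - 1) / 2), eps g i * ((m : ℤ) - 1 - 2 * ((i % m : ℕ) : ℤ))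
      - 2 * ((m : ℤ) + 1) * k := by
  have hH := two_mul_half hp
  have h2m : 2 * m ∣ (p - 1) / 2 := by
    obtain ⟨c, hc⟩ := h
    exact ⟨c, by
      have : 2 * ((p - 1) / 2) = 2 * (2 * m * c) := by rw [hH, hc]; ring
      omega⟩
  have hrefl : ∀ i < (p - 1) / 2,
      ((m : ℤ) - 1 - 2 * ((((p - 1) / 2 - 1 - i) % m : ℕ) : ℤ)) = - ((m : ℤ) - 1 - 2 * ((i % m : ℕ) : ℤ)) := by
    intro i hi
    obtain ⟨c, hc⟩ := h2m
    have h1 : ((p - 1) / 2 - 1 - i) % m + i % m + 1 = m := by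
      have h3 : (p - 1) / 2 = m * (2 * c) := by rw [hc]; ring
      have h4 := Nat.div_add_mod i m
      have h5 := Nat.mod_lt i hm
      have h6 : i / m < 2 * c := by
        rw [Nat.div_lt_iff_lt_mul hm, mul_comm, ← h3]; exact hi
      obtain ⟨d, hd⟩ : ∃ d, 2 * c = i / m + 1 + d := ⟨2 * c - (i / m + 1), by omega⟩
      have h7 : (p - 1) / 2 - 1 - i = m * d + (m - 1 - i % m) := by
        have h8 : m * (2 * c) = m * (i / m) + m + m * d := by rw [hd]; ring
        omega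
      rw [h7, Nat.mul_add_mod, Nat.mod_eq_of_lt (by omega)]
      omega
    have h2 : ((((p - 1) / 2 - 1 - i) % m : ℕ) : ℤ) + ((i % m : ℕ) : ℤ) + 1 = m := by exact_mod_cast h1
    linarith
  rw [sum_eps_mul hp hg (fun i => (m : ℤ) - 1 - 2 * ((i % m : ℕ) : ℤ)) hrefl]
  obtain ⟨r, hr1, hr2⟩ := quartic hp hg h16 m hm h2m k hk
  have hsum := sum_OO hp hg (Dvd.dvd.trans (by norm_num) h16) k hk
  have hsum' := hsum.of_dvd h
  have hcard := card_OO hp hg (Dvd.dvd.trans (by norm_num) h16)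
  -- Q
  have hQ : ∑ i ∈ OO g, (i / m) ≡ ((OO g).filter (fun i => (i / m) % 2 = 1)).card [MOD 2] := by
    rw [card_filter]
    unfold Nat.ModEq
    rw [sum_nat_mod]
    conv_rhs => rw [sum_nat_mod]
    congr 1
    apply sum_congr rfl
    intro i _
    split_ifs with h
    · omega
    · omega
  have hB : ∑ i ∈ OO g, i = ∑ i ∈ OO g, i % m + m * ∑ i ∈ OO g, (i / m) := by
    rw [mul_sum, ← sum_add_distrib]
    apply sum_congr rfl
    intro i _
    exact (Nat.mod_add_div i m).symm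
  have hS : ∑ i ∈ OO g, (2 * i + 1) = 2 * ∑ i ∈ OO g, i + (OO g).card := by
    rw [sum_add_distrib, mul_sum, sum_const, smul_eq_mul, mul_one]
  have hT : ∑ i ∈ OO g, ((m : ℤ) - 1 - 2 * ((i % m : ℕ) : ℤ))
      = ((m : ℤ) - 1) * (OO g).card - 2 * ((∑ i ∈ OO g, i % m : ℕ) : ℤ) := by
    rw [sum_sub_distrib, sum_const, nsmul_eq_mul, ← mul_sum]
    push_cast
    ring
  rw [hT]
  rw [hS] at hsum'
  set A := ∑ i ∈ OO g, i
  set B := ∑ i ∈ OO g, i % m
  set Q := ∑ i ∈ OO g, (i / m)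
  set o := (OO g).card
  set G := ((OO g).filter (fun i => (i / m) % 2 = 1)).card
  have ho : 4 ∣ o := by omega
  obtain ⟨o', ho'⟩ := ho
  have e1 := (Nat.modEq_iff_dvd.mp hsum')
  obtain ⟨u, hu⟩ := e1
  have e2 := hQ.trans hr1
  have e3 : (2 * Q + k) % 4 = 0 := by
    unfold Nat.ModEq at e2 hr2
    omega
  obtain ⟨v, hv⟩ : ∃ v, 2 * Q + k = 4 * v := ⟨(2 * Q + k) / 4, by omega⟩
  refine ⟨-u - o' - v, ?_⟩
  have hv' : (2 : ℤ) * Q + k = 4 * v := by exact_mod_cast hv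
  have hB' : (A : ℤ) = B + m * Q := by exact_mod_cast hB
  have ho'' : (o : ℤ) = 4 * o' := by exact_mod_cast ho'
  push_cast at hu
  have hu' : (k : ℤ) = 2 * A + o + 4 * m * u := by linarith
  -- goal: -2*((m-1)*o - 2*B) - 2*(m+1)*k = 8*m*(-u-o'-v)
  have hB'' : (B : ℤ) = A - m * Q := by linarith
  have : (-2 * (((m : ℤ) - 1) * o - 2 * B) - 2 * ((m : ℤ) + 1) * k) = 8 * m * (-u - o' - v) := by
    have e : (-2 * (((m : ℤ) - 1) * o - 2 * B) - 2 * ((m : ℤ) + 1) * k)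
        = 2 * (2 * A + o - k) - 2 * m * o - 2 * m * (2 * Q + k) := by
      rw [hB'']; ring
    rw [e, hv', ho'']
    have : (2 * (A : ℤ) + 4 * o' - k) = - 4 * m * u := by rw [hu', ho'']; ring
    rw [this]
    ring
  exact this


theorem card_eval (hp : 2 < p) (hg : orderOf g = p - 1) (e J : ℕ) (he : e ∣ p - 1) (h2e : 4 ∣ e)
    (hJ : J % 2 = 1) :
    Set.ncard {x : ZMod p | x ≠ 0 ∧ x ≠ 1 ∧
          ∃ a b : ℕ, g ^ a = x ∧ g ^ b = 1 - x ∧ (a + e / 2 * b) % e = J % e}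
    = ((range ((p - 1) / 2)).filter
        (fun i => (2 * i + 1 + e / 2 * lg g (1 - g ^ (2 * i + 1))) % e = J % e)).card := by
  have hH := two_mul_half hp
  have h0 := g_ne_zero hp hg
  rw [← card_image_of_injOn (f := fun i : ℕ => g ^ (2 * i + 1)), ← Set.ncard_coe_finset]
  · congr 1
    ext x
    simp only [Set.mem_ofPred_eq, coe_image, coe_filter, mem_range, Set.mem_image]
    constructor
    · rintro ⟨hx0, hx1, a, b, ha, hb, hab⟩
      have h1x : (1 : ZMod p) - x ≠ 0 := sub_ne_zero.mpr (Ne.symm hx1)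
      -- a is odd
      obtain ⟨c, hc⟩ := h2e
      have hodd : a % 2 = 1 := by
        have h5 : (a + e / 2 * b) % 2 = J % 2 := by
          have h6 : (a + e / 2 * b) ≡ J [MOD e] := hab
          exact h6.of_dvd ⟨2 * c, by omega⟩
        have h7 : e / 2 = 2 * c := by omega
        rw [h7, mul_assoc] at h5
        omega
      have hlt : lg g x < p - 1 := lg_lt hp hg x hx0
      have hpl := pow_lg hp hg x hx0
      have hmod : lg g x ≡ a [MOD (p - 1)] := by
        rw [← pow_eq_iff hp hg, hpl, ha]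
      have hodd2 : lg g x % 2 = 1 := by
        have := hmod.of_dvd (show 2 ∣ p - 1 by omega)
        unfold Nat.ModEq at this
        omega
      have hlx : 2 * ((lg g x - 1) / 2) + 1 = lg g x := by omega
      refine ⟨(lg g x - 1) / 2, ⟨by omega, ?_⟩, ?_⟩
      · rw [hlx, hpl]
        have hmod2 : lg g (1 - x) ≡ b [MOD (p - 1)] := by
          rw [← pow_eq_iff hp hg, pow_lg hp hg _ h1x, hb]
        have h8 : lg g x + e / 2 * lg g (1 - x) ≡ a + e / 2 * b [MOD e] :=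
          (hmod.of_dvd he).add ((hmod2.of_dvd he).mul_left _)
        exact h8.trans hab
      · rw [hlx, hpl]
    · rintro ⟨i, ⟨hi, hcond⟩, rfl⟩
      have h1 := one_sub_ne hp hg i
      refine ⟨pow_ne_zero _ h0, fun h => h1 (by rw [h]; ring), 2 * i + 1,
        lg g (1 - g ^ (2 * i + 1)), rfl, pow_lg hp hg _ h1, hcond⟩
  · intro i hi j hj hij
    have hi1 := mem_range.mp (mem_filter.mp (mem_coe.mp hi)).1
    have hj1 := mem_range.mp (mem_filter.mp (mem_coe.mp hj)).1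
    simp only at hij
    rw [pow_eq_iff hp hg] at hij
    have := Nat.ModEq.eq_of_lt_of_lt hij (by omega) (by omega)
    omega

theorem pointwise (P b i j : ℕ) (hP : 0 < P) (hj : j < P) :
    ((if (2 * i + 1 + (4 * P) / 2 * b) % (4 * P) = (2 * j + 1) % (4 * P) then (1 : ℤ) else 0)
      - (if (2 * i + 1 + (4 * P) / 2 * b) % (4 * P) = (2 * j + 1 + (4 * P) / 2) % (4 * P) then 1 else 0))
    = (-1) ^ b * ((-1) ^ (i / P) * (if i % P = j then 1 else 0)) := by
  have h2 : (4 * P) / 2 = 2 * P := by omega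
  rw [h2]
  have hi := Nat.div_add_mod i P
  have hr := Nat.mod_lt i hP
  set u := i / P
  set ρ := i % P
  have e1 : (2 * j + 1) % (4 * P) = 2 * j + 1 := Nat.mod_eq_of_lt (by omega)
  have e2 : (2 * j + 1 + 2 * P) % (4 * P) = 2 * j + 1 + 2 * P := Nat.mod_eq_of_lt (by omega)
  rw [e1, e2, ← mul_assoc, ← pow_add]
  rcases Nat.even_or_odd' (b + u) with ⟨c, hc | hc⟩
  · have e3 : (2 * i + 1 + 2 * P * b) % (4 * P) = 2 * ρ + 1 := by
      have : 2 * i + 1 + 2 * P * b = 4 * P * c + (2 * ρ + 1) := by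
        have h5 : P * (b + u) = P * (2 * c) := by rw [hc]
        nlinarith
      rw [this, Nat.mul_add_mod, Nat.mod_eq_of_lt (by omega)]
    rw [e3, hc, pow_mul]
    by_cases h : ρ = j
    · rw [if_pos (by omega), if_neg (by omega), if_pos h]; norm_num
    · rw [if_neg (by omega), if_neg (by omega), if_neg h]; norm_num
  · have e3 : (2 * i + 1 + 2 * P * b) % (4 * P) = 2 * ρ + 1 + 2 * P := by
      have : 2 * i + 1 + 2 * P * b = 4 * P * c + (2 * ρ + 1 + 2 * P) := by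
        have h5 : P * (b + u) = P * (2 * c + 1) := by rw [hc]
        nlinarith
      rw [this, Nat.mul_add_mod, Nat.mod_eq_of_lt (by omega)]
    rw [e3, hc, pow_succ, pow_mul]
    by_cases h : ρ = j
    · rw [if_neg (by omega), if_pos (by omega), if_pos h]; norm_num
    · rw [if_neg (by omega), if_neg (by omega), if_neg h]; norm_num


theorem D_eval (hp : 2 < p) (hg : orderOf g = p - 1) (D : ℕ → ℕ → ℤ)
    (hD : ∀ e j : ℕ, D e j =
      (Set.ncard {x : ZMod p | x ≠ 0 ∧ x ≠ 1 ∧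
          ∃ a b : ℕ, g ^ a = x ∧ g ^ b = 1 - x ∧
            (a + e / 2 * b) % e = j % e} : ℤ)
      - (Set.ncard {x : ZMod p | x ≠ 0 ∧ x ≠ 1 ∧
          ∃ a b : ℕ, g ^ a = x ∧ g ^ b = 1 - x ∧
            (a + e / 2 * b) % e = (j + e / 2) % e} : ℤ))
    (P j : ℕ) (hP : 0 < P) (hdvd : 4 * P ∣ p - 1) (hj : j < P) :
    D (4 * P) (2 * j + 1) = ∑ i ∈ range ((p - 1) / 2),
      eps g i * ((-1) ^ (i / P) * (if i % P = j then 1 else 0)) := by
  rw [hD]
  rw [card_eval hp hg (4 * P) (2 * j + 1) hdvd ⟨P, rfl⟩ (by omega),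
    card_eval hp hg (4 * P) (2 * j + 1 + (4 * P) / 2) hdvd ⟨P, rfl⟩ (by omega)]
  rw [card_filter, card_filter]
  push_cast
  rw [← sum_sub_distrib]
  apply sum_congr rfl
  intro i _
  rw [eps_eq_lg hp hg, ← pointwise P _ i j hP hj]

theorem reflect_sign (s : ℕ) (i : ℕ) (hi : i < (p - 1) / 2) (h : 2 * 2 ^ s ∣ (p - 1) / 2) :
    (-1 : ℤ) ^ (((p - 1) / 2 - 1 - i) / 2 ^ s) = - (-1) ^ (i / 2 ^ s) := by
  obtain ⟨c, hc⟩ := div_reflect _ (2 ^ s) (by positivity) h i hi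
  have h1 : (-1 : ℤ) ^ (((p - 1) / 2 - 1 - i) / 2 ^ s) * (-1) ^ (i / 2 ^ s) = -1 := by
    have h2 : (-1 : ℤ) ^ (((p - 1) / 2 - 1 - i) / 2 ^ s + i / 2 ^ s + 1) = 1 := by
      rw [hc, pow_mul]; norm_num
    rw [pow_succ, pow_add] at h2
    linarith
  rcases neg_one_pow_eq_or ℤ (i / 2 ^ s) with h3 | h3 <;>
  rcases neg_one_pow_eq_or ℤ (((p - 1) / 2 - 1 - i) / 2 ^ s) with h4 | h4 <;>
  rw [h3, h4] at h1 <;> rw [h3, h4] <;> first | (exfalso; norm_num at h1; done) | norm_num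

theorem T_eval (hp : 2 < p) (hg : orderOf g = p - 1) (D : ℕ → ℕ → ℤ)
    (hD : ∀ e j : ℕ, D e j =
      (Set.ncard {x : ZMod p | x ≠ 0 ∧ x ≠ 1 ∧
          ∃ a b : ℕ, g ^ a = x ∧ g ^ b = 1 - x ∧
            (a + e / 2 * b) % e = j % e} : ℤ)
      - (Set.ncard {x : ZMod p | x ≠ 0 ∧ x ≠ 1 ∧
          ∃ a b : ℕ, g ^ a = x ∧ g ^ b = 1 - x ∧
            (a + e / 2 * b) % e = (j + e / 2) % e} : ℤ))
    (s : ℕ) (hdvd : 2 ^ (s + 3) ∣ p - 1) :
    2 * ∑ j ∈ range (2 ^ s), D (2 ^ (s + 3)) (2 * j + 1)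
      = ∑ i ∈ range ((p - 1) / 2), eps g i * (-1) ^ (i / 2 ^ (s + 1)) := by
  have hH := two_mul_half hp
  have h4 : 4 ∣ p - 1 := Dvd.dvd.trans ⟨2 * 2 ^ s, by ring⟩ hdvd
  have hd1 : 2 * 2 ^ (s + 1) ∣ (p - 1) / 2 := by
    obtain ⟨c, hc⟩ := hdvd
    refine ⟨c, ?_⟩
    have h1 : 2 * ((p - 1) / 2) = 2 * (2 * 2 ^ (s + 1) * c) := by rw [hH, hc]; ring
    omega
  have hd0 : 2 * 2 ^ s ∣ (p - 1) / 2 := Dvd.dvd.trans ⟨2, by ring⟩ hd1
  have e1 : ∑ j ∈ range (2 ^ s), D (2 ^ (s + 3)) (2 * j + 1)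
      = ∑ i ∈ range ((p - 1) / 2),
        eps g i * ((-1) ^ (i / 2 ^ (s + 1)) * (if (i / 2 ^ s) % 2 = 0 then 1 else 0)) := by
    have e2 : ∀ j ∈ range (2 ^ s), D (2 ^ (s + 3)) (2 * j + 1)
        = ∑ i ∈ range ((p - 1) / 2),
          eps g i * ((-1) ^ (i / 2 ^ (s + 1)) * (if i % 2 ^ (s + 1) = j then 1 else 0)) := by
      intro j hj
      have hj' := mem_range.mp hj
      have e3 : (2 : ℕ) ^ (s + 3) = 4 * 2 ^ (s + 1) := by ring
      rw [e3]
      apply D_eval hp hg D hD (2 ^ (s + 1)) j (by positivity)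
      · rw [← e3]; exact hdvd
      · rw [pow_succ]; omega
    rw [sum_congr rfl e2, sum_comm]
    apply sum_congr rfl
    intro i _
    rw [← mul_sum, ← mul_sum]
    congr 2
    rw [sum_ite_eq]
    have e4 : i % 2 ^ (s + 1) = i % 2 ^ s + 2 ^ s * (i / 2 ^ s % 2) := Nat.mod_pow_succ
    have e5 : i % 2 ^ s < 2 ^ s := Nat.mod_lt _ (by positivity)
    by_cases h : (i / 2 ^ s) % 2 = 0
    · rw [if_pos h, if_pos]
      rw [mem_range, e4, h]; omega
    · have h' : (i / 2 ^ s) % 2 = 1 := by omega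
      rw [if_neg h, if_neg]
      rw [mem_range, e4, h']; omega
  rw [e1, two_mul]
  nth_rewrite 1 [← sum_range_reflect]
  rw [← sum_add_distrib]
  apply sum_congr rfl
  intro i hi
  have hi' := mem_range.mp hi
  rw [eps_reflect hp hg h4 i hi', reflect_sign (s + 1) i hi' hd1]
  obtain ⟨c, hc⟩ := div_reflect _ (2 ^ s) (by positivity) hd0 i hi'
  by_cases h : (i / 2 ^ s) % 2 = 0
  · rw [if_pos h, if_neg (by omega)]; ring
  · rw [if_neg h, if_pos (by omega)]; ring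

theorem L_eval (hp : 2 < p) (hg : orderOf g = p - 1) (D : ℕ → ℕ → ℤ)
    (hD : ∀ e j : ℕ, D e j =
      (Set.ncard {x : ZMod p | x ≠ 0 ∧ x ≠ 1 ∧
          ∃ a b : ℕ, g ^ a = x ∧ g ^ b = 1 - x ∧
            (a + e / 2 * b) % e = j % e} : ℤ)
      - (Set.ncard {x : ZMod p | x ≠ 0 ∧ x ≠ 1 ∧
          ∃ a b : ℕ, g ^ a = x ∧ g ^ b = 1 - x ∧
            (a + e / 2 * b) % e = (j + e / 2) % e} : ℤ))
    (r : ℕ) (hdvd : 2 ^ (r + 2) ∣ p - 1) :
    D 4 1 + 2 * ∑ t ∈ Finset.Ico 3 (r + 3), (2 : ℤ) ^ (t - 2) *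
          ∑ j ∈ Finset.range (2 ^ (t - 3)), D (2 ^ t) (2 * j + 1)
      = ∑ i ∈ range ((p - 1) / 2),
        eps g i * ((2 ^ (r + 1) : ℕ) - 1 - 2 * ((i % 2 ^ (r + 1) : ℕ) : ℤ)) := by
  have e0 : D 4 1 = ∑ i ∈ range ((p - 1) / 2), eps g i * (-1) ^ (i / 2 ^ 0) := by
    have h4 : 4 ∣ p - 1 := Dvd.dvd.trans ⟨2 ^ r, by ring⟩ hdvd
    have := D_eval hp hg D hD 1 0 (by norm_num) (by simpa using h4) (by norm_num)
    simp only [mul_one, mul_zero, zero_add] at this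
    rw [this]
    apply sum_congr rfl
    intro i _
    simp [Nat.mod_one]
  have e1 : ∀ i ∈ range ((p - 1) / 2),
      eps g i * (((2 ^ (r + 1) : ℕ) : ℤ) - 1 - 2 * ((i % 2 ^ (r + 1) : ℕ) : ℤ))
      = ∑ s ∈ range (r + 1), 2 ^ s * (eps g i * (-1) ^ (i / 2 ^ s)) := by
    intro i _
    push_cast
    have h := sign_sum i (r + 1)
    push_cast at h
    rw [← h, mul_sum]
    apply sum_congr rfl
    intro s _
    ring
  rw [sum_congr rfl e1, sum_comm, sum_range_succ', sum_Ico_eq_sum_range, mul_sum]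
  rw [pow_zero, add_comm]
  congr 1
  · have : r + 3 - 3 = r := by omega
    rw [this]
    apply sum_congr rfl
    intro s hs
    have hs' := mem_range.mp hs
    have h1 : 3 + s - 2 = s + 1 := by omega
    have h2 : 3 + s - 3 = s := by omega
    have h3 : 3 + s = s + 3 := by omega
    rw [h1, h2, h3]
    have h5 := T_eval hp hg D hD s (Dvd.dvd.trans (pow_dvd_pow 2 (by omega)) hdvd)
    rw [← mul_sum, ← h5]
    ring
  · rw [e0]
    simp

/-- Q1 in general form -/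
theorem Q1 (n : ℕ) (hn : 2 < n) (h16 : 16 ∣ p - 1) (hdvd : 2 ^ n ∣ p - 1) (hp : 2 < p)
    (hg : orderOf g = p - 1) (D : ℕ → ℕ → ℤ)
    (hD : ∀ e j : ℕ, D e j =
      (Set.ncard {x : ZMod p | x ≠ 0 ∧ x ≠ 1 ∧
          ∃ a b : ℕ, g ^ a = x ∧ g ^ b = 1 - x ∧
            (a + e / 2 * b) % e = j % e} : ℤ)
      - (Set.ncard {x : ZMod p | x ≠ 0 ∧ x ≠ 1 ∧
          ∃ a b : ℕ, g ^ a = x ∧ g ^ b = 1 - x ∧
            (a + e / 2 * b) % e = (j + e / 2) % e} : ℤ))
    (k : ℕ) (hk : g ^ k = 2) :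
    (2 ^ (n + 1) : ℤ) ∣ D 4 1
      + 2 * ∑ t ∈ Finset.Ico 3 n, (2 : ℤ) ^ (t - 2) *
          ∑ j ∈ Finset.range (2 ^ (t - 3)), D (2 ^ t) (2 * j + 1)
      - 2 * ((2 : ℤ) ^ (n - 2) + 1) * (k : ℤ) := by
  obtain ⟨r, rfl⟩ : ∃ r, n = r + 3 := ⟨n - 3, by omega⟩
  rw [L_eval hp hg D hD r (Dvd.dvd.trans (pow_dvd_pow 2 (by omega)) hdvd)]
  have h1 := main_cong hp hg h16 (2 ^ (r + 1)) (by positivity)
    (by rw [show 4 * 2 ^ (r + 1) = 2 ^ (r + 3) by ring]; exact hdvd) k hk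
  have h2 : r + 3 - 2 = r + 1 := by omega
  rw [h2]
  have h3 : (8 : ℤ) * ((2 ^ (r + 1) : ℕ) : ℤ) = 2 ^ (r + 3 + 1) := by push_cast; ring
  rw [h3] at h1
  have h4 : ((2 ^ (r + 1) : ℕ) : ℤ) = (2 : ℤ) ^ (r + 1) := by push_cast; rfl
  rw [h4] at h1 ⊢
  exact h1

/-- Q2 in general form -/
theorem Q2 (n : ℕ) (hn : 3 < n) (hdvd : 2 ^ n ∣ p - 1) (hp : 2 < p)
    (hg : orderOf g = p - 1) (D : ℕ → ℕ → ℤ)
    (hD : ∀ e j : ℕ, D e j =
      (Set.ncard {x : ZMod p | x ≠ 0 ∧ x ≠ 1 ∧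
          ∃ a b : ℕ, g ^ a = x ∧ g ^ b = 1 - x ∧
            (a + e / 2 * b) % e = j % e} : ℤ)
      - (Set.ncard {x : ZMod p | x ≠ 0 ∧ x ≠ 1 ∧
          ∃ a b : ℕ, g ^ a = x ∧ g ^ b = 1 - x ∧
            (a + e / 2 * b) % e = (j + e / 2) % e} : ℤ))
    (k : ℕ) (hk : g ^ k = 2) :
    (2 ^ (n + 1) : ℤ) ∣ D 4 1
      + 2 * ∑ t ∈ Finset.Ico 3 (n - 1), (2 : ℤ) ^ (t - 2) *
          ∑ j ∈ Finset.range (2 ^ (t - 3)), D (2 ^ t) (2 * j + 1)
      - 2 * (2 : ℤ) ^ (n - 3) * ∑ j ∈ Finset.range (2 ^ (n - 4)), D (2 ^ (n - 1)) (2 * j + 1)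
      - 2 * (k : ℤ) := by
  obtain ⟨r, rfl⟩ : ∃ r, n = r + 4 := ⟨n - 4, by omega⟩
  have h16 : 16 ∣ p - 1 := Dvd.dvd.trans ⟨2 ^ r, by ring⟩ hdvd
  have h1 := Q1 (r + 4) (by omega) h16 hdvd hp hg D hD k hk
  have h2 := Q1 (r + 3) (by omega) h16 (Dvd.dvd.trans (pow_dvd_pow 2 (by omega)) hdvd) hp hg D hD k hk
  have e1 : r + 4 - 1 = r + 3 := by omega
  have e2 : r + 4 - 2 = r + 2 := by omega
  have e3 : r + 3 - 2 = r + 1 := by omega
  have e4 : r + 4 - 3 = r + 1 := by omega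
  have e5 : r + 4 - 4 = r := by omega
  rw [e1, e4, e5]
  rw [e2, show r + 4 = (r + 3) + 1 by ring, Finset.sum_Ico_succ_top (by omega)] at h1
  rw [e3] at h2
  have e6 : r + 3 - 3 = r := by omega
  rw [e6, e3] at h1
  obtain ⟨u, hu⟩ := h1
  obtain ⟨v, hv⟩ := h2
  set X := D 4 1
  set Y := ∑ t ∈ Finset.Ico 3 (r + 3), (2 : ℤ) ^ (t - 2) *
          ∑ j ∈ Finset.range (2 ^ (t - 3)), D (2 ^ t) (2 * j + 1)
  set Z := ∑ j ∈ Finset.range (2 ^ r), D (2 ^ (r + 3)) (2 * j + 1)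
  refine ⟨v - u, ?_⟩
  have g1 : (2 : ℤ) ^ (r + 3 + 1 + 1) = 2 * 2 ^ (r + 3 + 1) := by ring
  have g2 : (2 : ℤ) ^ (r + 2) = 2 * 2 ^ (r + 1) := by ring
  have g3 : (2 : ℤ) ^ (r + 4 + 1) = 2 * 2 ^ (r + 3 + 1) := by ring
  rw [g1, g2] at hu
  rw [g3]
  linear_combination 2 * hv - hu

end setup

end Pool.Agent.IndTwoJacobi
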